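import Pool.Agent.Q94.WalshE

/-!
# The dyadic `U^α` means are not bounded from `H_p` to `L_p`, `p = 1/(1+α)`

For every `α ∈ (0,1)`: the norms of `U^α_{2^n} : H_p → L_p` grow at least like `n^{1+α}`; hence
there is no uniform bound. The test martingale is the atom `2^{αN} w_{2^N} D_{2^N}`, `N = n - 1`; on
the cells `x_0 = … = x_{s-1} = 0`, `x_s = x_{s+1} = 1` the kernel `∑ q_i D_i` is bounded by its
first block and its average over the cell is comparable to that bound.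
-/

open MeasureTheory Finset Q94.WF
open scoped ENNReal

theorem Pool.Agent.Results.MP_d27c5e_an.Unbounded.result (α : ℝ) (hα0 : 0 < α) (hα1 : α < 1) :
    (∃ κ : ℝ, 0 < κ ∧ ∀ n : ℕ, 3 ≤ n → ∃ f : ℕ → G → ℝ, Martingale f ℱ μ ∧
      Hnorm (1 / (1 + α)) f = 1 ∧
      ENNReal.ofReal (κ * (n : ℝ) ^ (1 + α)) ≤ Lnorm (1 / (1 + α)) (Umean α f (2 ^ n))) ∧
    ¬ ∃ C : ℝ, ∀ f : ℕ → G → ℝ, Martingale f ℱ μ → Hnorm (1 / (1 + α)) f < ⊤ →
      ∀ n : ℕ, Lnorm (1 / (1 + α)) (Umean α f (2 ^ n))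
        ≤ ENNReal.ofReal C * Hnorm (1 / (1 + α)) f :=
  ⟨U_main hα0 hα1, no_bound (M := Umean α) (by linarith) (U_main hα0 hα1)⟩
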